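import Mathlib

namespace Pool.Agent.Lib.MP_ce2de7_lc

open Cardinal

/-- The Boolean combination `⋂ 𝒜^h`: the intersection over `A ∈ 𝒜` of `A` (if `h A = 0`)
or of the complement of `A` (if `h A = 1`); it is the whole space when `𝒜` is empty. -/
def comb {X : Type} (𝒜 : Set (Set X)) (h : 𝒜 → Fin 2) : Set X :=
  ⋂ A : 𝒜, if h A = 0 then (A : Set X) else (A : Set X)ᶜ

/-- `I` is barely independent over the set `X` (whose cardinality plays the role of `λ`). -/
def BarelyIndependent {X : Type} (I : Set (Set X)) : Prop :=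
  (∀ A ∈ I, #A = #X) ∧ I.Infinite ∧
  (∀ 𝒜 : Set (Set X), 𝒜 ⊆ I → 𝒜.Finite → ∀ h : 𝒜 → Fin 2, #(comb 𝒜 h) = #X) ∧
  (∀ 𝒜 : Set (Set X), 𝒜 ⊆ I → 𝒜.Countable → 𝒜.Infinite → ∀ h : 𝒜 → Fin 2, #(comb 𝒜 h) < #X)

/-- `S` splits `R`: both `R ∩ S` and `R \ S` are infinite. -/
def Splits (S R : Set ℕ) : Prop :=
  (R ∩ S).Infinite ∧ (R \ S).Infinite

/-- The splitting number `𝔰`: the least size of a family of subsets of `ω` such that every
infinite subset of `ω` is split by some member of the family. -/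
noncomputable def splittingNumber : Cardinal.{0} :=
  sInf {c | ∃ 𝒮 : Set (Set ℕ), #𝒮 = c ∧ ∀ R : Set ℕ, R.Infinite → ∃ S ∈ 𝒮, Splits S R}

end Pool.Agent.Lib.MP_ce2de7_lc
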