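import Mathlib
import Pool.Agent.Lib.MP_ce2de7_lc.Defs

namespace Pool.Agent.Lib.MP_ce2de7_lc

open Cardinal Set

variable {X : Type}

/-- Boolean combination of a sequence of sets along an index set. -/
def seqComb (A : ℕ → Set X) (B : Set ℕ) (s : ℕ → Prop) : Set X :=
  {x | ∀ n ∈ B, (x ∈ A n ↔ s n)}

theorem mem_comb {𝒜 : Set (Set X)} {h : 𝒜 → Fin 2} {x : X} :
    x ∈ comb 𝒜 h ↔ ∀ A : 𝒜, (x ∈ (A : Set X) ↔ h A = 0) := by
  unfold comb
  rw [mem_iInter]
  refine forall_congr' fun A => ?_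
  split_ifs with hA <;> simp [hA]

theorem exists_comb_eq {A : ℕ → Set X} (hA : Function.Injective A) (B : Set ℕ) (s : ℕ → Prop) :
    ∃ h : (A '' B) → Fin 2, comb (A '' B) h = seqComb A B s := by
  classical
  refine ⟨fun a => if ∃ n, A n = a ∧ s n then 0 else 1, ?_⟩
  ext x
  rw [mem_comb]
  constructor
  · intro h n hn
    have := h ⟨A n, mem_image_of_mem A hn⟩
    simp only [hA.eq_iff, exists_eq_left] at this
    rw [this]
    split_ifs with hs <;> simp [hs]
  · rintro h ⟨a, n, hn, rfl⟩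
    simp only [hA.eq_iff, exists_eq_left]
    rw [h n hn]
    split_ifs with hs <;> simp [hs]

/-- A barely independent family gives a barely independent sequence. -/
theorem BarelyIndependent.exists_seq {I : Set (Set X)} (hI : BarelyIndependent I) :
    ∃ A : ℕ → Set X, (∀ B : Set ℕ, B.Finite → ∀ s, #(seqComb A B s) = #X) ∧
      (∀ B : Set ℕ, B.Infinite → ∀ s, #(seqComb A B s) < #X) := by
  obtain ⟨-, hinf, hfin, hcnt⟩ := hI
  let e := hinf.natEmbedding
  let A : ℕ → Set X := fun n => (e n : Set X)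
  have hA : Function.Injective A := fun m n h => e.injective (Subtype.ext h)
  have hsub : ∀ B : Set ℕ, A '' B ⊆ I := by
    rintro B _ ⟨n, -, rfl⟩
    exact (e n).2
  refine ⟨A, fun B hB s => ?_, fun B hB s => ?_⟩
  · obtain ⟨h, hh⟩ := exists_comb_eq hA B s
    rw [← hh]
    exact hfin _ (hsub B) (hB.image A) h
  · obtain ⟨h, hh⟩ := exists_comb_eq hA B s
    rw [← hh]
    exact hcnt _ (hsub B) ((to_countable B).image A) (hB.image hA.injOn) h

/-- An increasing countable union of sets of size at most `μ` has size at most `μ`. -/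
theorem mk_iUnion_le_of_monotone {D : ℕ → Set X} (hD : Monotone D) {μ : Cardinal.{0}}
    (h : ∀ n, #(D n) ≤ μ) : #(⋃ n, D n) ≤ μ := by
  rcases lt_or_ge μ ℵ₀ with hμ | hμ
  · obtain ⟨m, rfl⟩ := Cardinal.lt_aleph0.1 hμ
    by_contra hlt
    push Not at hlt
    have h1 : ((m + 1 : ℕ) : Cardinal.{0}) ≤ #(⋃ n, D n) := by
      rw [Nat.cast_succ]
      exact Cardinal.natCast_add_one_le_iff.2 hlt
    obtain ⟨t, ht, htc⟩ := Cardinal.le_mk_iff_exists_subset.1 h1
    have htf : t.Finite := by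
      rw [← Cardinal.lt_aleph0_iff_set_finite, htc]
      exact Cardinal.natCast_lt_aleph0
    obtain ⟨n, hn⟩ : ∃ n, t ⊆ D n := by
      have := hD.directed_le.exists_mem_subset_of_finset_subset_biUnion (s := htf.toFinset)
        (by simpa using ht)
      simpa using this
    have h2 : ((m + 1 : ℕ) : Cardinal.{0}) ≤ m := by
      rw [← htc]
      exact (mk_le_mk_of_subset hn).trans (h n)
    have : m + 1 ≤ m := by exact_mod_cast h2
    omega
  · calc #(⋃ n, D n) ≤ Cardinal.sum fun n => #(D n) := mk_iUnion_le_sum_mk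
      _ ≤ Cardinal.sum fun _ : ℕ => μ := Cardinal.sum_le_sum _ _ h
      _ = ℵ₀ * μ := by simp
      _ = μ := by
        rw [mul_comm]
        exact Cardinal.mul_eq_left hμ hμ aleph0_ne_zero

theorem no_seq_of_unsplit [Infinite X] {A : ℕ → Set X}
    (hfin : ∀ B : Set ℕ, B.Finite → ∀ s, #(seqComb A B s) = #X)
    (hinf : ∀ B : Set ℕ, B.Infinite → ∀ s, #(seqComb A B s) < #X)
    {R : Set ℕ} (hR : R.Infinite) (hsp : ∀ x, ¬ Splits {n | x ∈ A n} R) : False := by
  classical
  have hX : ℵ₀ ≤ #X := aleph0_le_mk X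
  let Bt : Prop → ℕ → Set X := fun i n => seqComb A (R ∩ Ici n) (fun _ => i)
  have hBt_mono : ∀ i, Monotone (Bt i) := by
    intro i m n hmn x hx k hk
    exact hx k ⟨hk.1, le_trans hmn hk.2⟩
  have hBt_lt : ∀ i n, #(Bt i n) < #X := fun i n => by
    apply hinf
    have : R ∩ Ici n = R \ Iio n := by
      ext k; simp
    rw [this]
    exact hR.sdiff (finite_Iio n)
  let K : Prop → Set X := fun i => ⋃ n, Bt i n
  have hK : ∀ x, x ∈ K True ∨ x ∈ K False := by
    intro x
    have := hsp x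
    unfold Splits at this
    rw [not_and_or, not_infinite, not_infinite] at this
    rcases this with h | h
    · right
      obtain ⟨n, hn⟩ := h.bddAbove
      refine mem_iUnion.2 ⟨n + 1, fun k hk => ?_⟩
      simp only [iff_false]
      intro hx
      have h1 : k ≤ n := hn ⟨hk.1, hx⟩
      have h2 : n + 1 ≤ k := hk.2
      omega
    · left
      obtain ⟨n, hn⟩ := h.bddAbove
      refine mem_iUnion.2 ⟨n + 1, fun k hk => ?_⟩
      simp only [iff_true]
      by_contra hx
      have h1 : k ≤ n := hn ⟨hk.1, hx⟩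
      have h2 : n + 1 ≤ k := hk.2
      omega
  obtain ⟨i, F, hF⟩ : ∃ (i : Prop) (F : Finset ℕ), ∀ G : Finset ℕ, Disjoint G F →
      #X ≤ #(seqComb A G (fun _ => i) ∩ K i : Set X) := by
    by_contra hcon
    push Not at hcon
    obtain ⟨G1, -, h1⟩ := hcon True ∅
    obtain ⟨G2, hd, h2⟩ := hcon False G1
    have hsub : seqComb A ((G1 : Set ℕ) ∪ G2) (fun n => n ∈ G1) ⊆
        (seqComb A G1 (fun _ => True) ∩ K True) ∪ (seqComb A G2 (fun _ => False) ∩ K False) := by
      intro x hx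
      rcases hK x with h | h
      · left
        refine ⟨fun n hn => ?_, h⟩
        rw [hx n (Or.inl hn)]
        simpa using hn
      · right
        refine ⟨fun n hn => ?_, h⟩
        rw [hx n (Or.inr hn)]
        simp only [iff_false]
        exact Finset.disjoint_left.1 hd hn
    have h3 := hfin _ (G1.finite_toSet.union G2.finite_toSet) (fun n => n ∈ G1)
    have h4 := (mk_le_mk_of_subset hsub).trans (mk_union_le _ _)
    rw [h3] at h4
    exact absurd (Cardinal.add_lt_of_lt hX h1 h2) (not_lt.2 h4)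
  have big : ∀ (μ : Cardinal.{0}), μ < #X → ∀ G : Finset ℕ, Disjoint G F →
      ∃ n, μ < #(seqComb A G (fun _ => i) ∩ Bt i n : Set X) := by
    intro μ hμ G hG
    by_contra hcon
    push Not at hcon
    have hmono : Monotone fun n => seqComb A G (fun _ => i) ∩ Bt i n :=
      fun m n hmn => inter_subset_inter_right _ (hBt_mono i hmn)
    have h1 := mk_iUnion_le_of_monotone hmono hcon
    rw [← inter_iUnion] at h1
    exact absurd ((hF G hG).trans h1) (not_le.2 hμ)
  have step : ∀ (j : ℕ) (G : Finset ℕ), ∃ r, r ∈ R ∧ r ∉ F ∧ (∀ g ∈ G, g < r) ∧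
      (Disjoint G F → #(Bt i j) < #(seqComb A G (fun _ => i) ∩ Bt i r : Set X)) := by
    intro j G
    have hn : ∃ n, Disjoint G F → #(Bt i j) < #(seqComb A G (fun _ => i) ∩ Bt i n : Set X) := by
      by_cases hG : Disjoint G F
      · obtain ⟨n, hn⟩ := big _ (hBt_lt i j) G hG
        exact ⟨n, fun _ => hn⟩
      · exact ⟨0, fun h => absurd h hG⟩
    obtain ⟨n, hn⟩ := hn
    obtain ⟨r, hr, hr2⟩ := hR.exists_gt (n + (G ∪ F).sup id)
    refine ⟨r, hr, fun h => ?_, fun g hg => ?_, fun hG => ?_⟩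
    · have : id r ≤ (G ∪ F).sup id := Finset.le_sup (Finset.mem_union_right _ h)
      simp only [id] at this
      omega
    · have : id g ≤ (G ∪ F).sup id := Finset.le_sup (Finset.mem_union_left _ hg)
      simp only [id] at this
      omega
    · exact (hn hG).trans_le (mk_le_mk_of_subset
        (inter_subset_inter_right _ (hBt_mono i (by omega))))
  choose r hrR hrF hrG hr using step
  let G : ℕ → Finset ℕ := fun j => Nat.rec ∅ (fun j G => insert (r j G) G) j
  let ρ : ℕ → ℕ := fun j => r j (G j)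
  have hG0 : G 0 = ∅ := rfl
  have hGs : ∀ j, G (j + 1) = insert (ρ j) (G j) := fun j => rfl
  have hGmem : ∀ j l, l < j → ρ l ∈ G j := by
    intro j
    induction j with
    | zero => intro l hl; omega
    | succ j ih =>
      intro l hl
      rw [hGs]
      rcases Nat.lt_succ_iff_lt_or_eq.1 hl with h | h
      · exact Finset.mem_insert_of_mem (ih l h)
      · subst h
        exact Finset.mem_insert_self _ _
  have hGdisj : ∀ j, Disjoint (G j) F := by
    intro j
    induction j with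
    | zero => simp [hG0]
    | succ j ih =>
      rw [hGs, Finset.disjoint_insert_left]
      exact ⟨hrF _ _, ih⟩
  have hρ : StrictMono ρ := fun l j hlj => hrG j (G j) _ (hGmem j l hlj)
  have hlt := hinf (range ρ) (infinite_range_of_injective hρ.injective) (fun _ => i)
  obtain ⟨j, hj⟩ := big _ hlt ∅ (by simp)
  have h1 : #(seqComb A (∅ : Finset ℕ) (fun _ => i) ∩ Bt i j : Set X) ≤ #(Bt i j) :=
    mk_le_mk_of_subset inter_subset_right
  have h2 := hr j (G j) (hGdisj j)
  have h3 : seqComb A (SetLike.coe (G j)) (fun _ => i) ∩ Bt i (ρ j) ⊆ seqComb A (range ρ) (fun _ => i) := by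
    rintro x ⟨hx1, hx2⟩ _ ⟨l, rfl⟩
    rcases lt_or_ge l j with h | h
    · exact hx1 _ (hGmem j l h)
    · exact hx2 _ ⟨hrR _ _, hρ.monotone h⟩
  exact absurd ((hj.trans_le h1).trans (h2.trans_le (mk_le_mk_of_subset h3))) (lt_irrefl _)

theorem no_barely_of_lt_splitting [Infinite X] (hX : #X < splittingNumber) (I : Set (Set X)) :
    ¬ BarelyIndependent I := by
  intro hI
  obtain ⟨A, hfin, hinf⟩ := hI.exists_seq
  let a : X → Set ℕ := fun x => {n | x ∈ A n}
  have h1 : ¬ ∀ R : Set ℕ, R.Infinite → ∃ S ∈ range a, Splits S R := by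
    intro h
    have h2 : splittingNumber ≤ #(range a) := csInf_le' ⟨range a, rfl, h⟩
    exact absurd (h2.trans mk_range_le) (not_le.2 hX)
  push Not at h1
  obtain ⟨R, hR, hsp⟩ := h1
  exact no_seq_of_unsplit hfin hinf hR fun x => hsp _ ⟨x, rfl⟩

theorem mk_iUnion_lt_of_cof {ι : Type} [Countable ι] {D : ι → Set X}
    (hcof : ℵ₀ < (#X).ord.cof) (h : ∀ n, #(D n) < #X) : #(⋃ n, D n) < #X := by
  have hι : #ι < (#X).ord.cof := mk_le_aleph0.trans_lt hcof
  have hX : ℵ₀ < #X := hcof.trans_le (Ordinal.cof_ord_le _)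
  exact mk_iUnion_le_sum_mk.trans_lt <| (sum_le_mk_mul_iSup _).trans_lt <|
    mul_lt_of_lt hX.le (mk_le_aleph0.trans_lt hX) (iSup_lt_of_lt_cof_ord hι h)

theorem tail_of_barely (hcof : ℵ₀ < (#X).ord.cof) {I : Set (Set X)} (hI : BarelyIndependent I) :
    ∃ a : X → Set ℕ, ∀ R : Set ℕ, R.Infinite → #{x | ¬ Splits (a x) R} < #X := by
  obtain ⟨A, -, hinf⟩ := hI.exists_seq
  refine ⟨fun x => {n | x ∈ A n}, fun R hR => ?_⟩
  let D : ℕ × Bool → Set X := fun p => seqComb A (R ∩ Ici p.1) (fun _ => p.2 = true)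
  have hD : ∀ p, #(D p) < #X := fun p => by
    apply hinf
    have : R ∩ Ici p.1 = R \ Iio p.1 := by
      ext k; simp
    rw [this]
    exact hR.sdiff (finite_Iio _)
  refine (mk_le_mk_of_subset ?_).trans_lt (mk_iUnion_lt_of_cof hcof hD)
  intro x hx
  simp only [mem_ofPred_eq, Splits] at hx
  rw [not_and_or, not_infinite, not_infinite] at hx
  rcases hx with h | h
  · obtain ⟨n, hn⟩ := h.bddAbove
    refine mem_iUnion.2 ⟨(n + 1, false), fun k hk => ?_⟩
    simp only [Bool.false_eq_true, iff_false]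
    intro hx
    have h1 : k ≤ n := hn ⟨hk.1, hx⟩
    have h2 : n + 1 ≤ k := hk.2
    omega
  · obtain ⟨n, hn⟩ := h.bddAbove
    refine mem_iUnion.2 ⟨(n + 1, true), fun k hk => ?_⟩
    simp only [iff_true]
    by_contra hx
    have h1 : k ≤ n := hn ⟨hk.1, hx⟩
    have h2 : n + 1 ≤ k := hk.2
    omega

theorem barely_of_tail (hX : ℵ₀ < #X) {a : X → Set ℕ}
    (ha : ∀ R : Set ℕ, R.Infinite → #{x | ¬ Splits (a x) R} < #X) :
    ∃ I : Set (Set X), BarelyIndependent I := by
  classical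
  obtain ⟨e⟩ : Nonempty (X ≃ X × (ℕ × Finset ℕ)) := by
    rw [← Cardinal.eq]
    have : #(ℕ × Finset ℕ) = ℵ₀ := mk_eq_aleph0 _
    rw [mk_prod, this]
    simp only [lift_id]
    exact (Cardinal.mul_eq_left hX.le hX.le aleph0_ne_zero).symm
  let A : ℕ → Set X := fun n =>
    {x | if n < (e x).2.1 then n ∈ (e x).2.2 else n ∈ a (e x).1}
  have hfin : ∀ B : Set ℕ, B.Finite → ∀ s, #(seqComb A B s) = #X := by
    intro B hB s
    refine le_antisymm (mk_set_le _) ?_
    obtain ⟨m, hm⟩ := hB.bddAbove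
    let p : ℕ × Finset ℕ := (m + 1, (Finset.range (m + 1)).filter s)
    let f : X → seqComb A B s := fun y => ⟨e.symm (y, p), fun n hn => by
      have h1 : n < m + 1 := Nat.lt_succ_of_le (hm hn)
      simp [A, p, h1]⟩
    refine mk_le_of_injective (f := f) fun y z hyz => ?_
    have := congrArg (fun w : seqComb A B s => (e w.1).1) hyz
    simpa [f] using this
  have hinf : ∀ B : Set ℕ, B.Infinite → ∀ s, #(seqComb A B s) < #X := by
    intro B hB s
    obtain ⟨R, hR, hRB, i, hi⟩ : ∃ R : Set ℕ, R.Infinite ∧ R ⊆ B ∧ ∃ i : Prop, ∀ n ∈ R, (s n ↔ i) := by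
      have : B = (B ∩ {n | s n}) ∪ (B ∩ {n | ¬ s n}) := by
        ext n; by_cases h : s n <;> simp [h]
      rw [this, infinite_union] at hB
      rcases hB with h | h
      · exact ⟨_, h, inter_subset_left, True, fun n hn => by simpa using hn.2⟩
      · exact ⟨_, h, inter_subset_left, False, fun n hn => by simpa using hn.2⟩
    have hsub : seqComb A B s ⊆ e ⁻¹' ({y | ¬ Splits (a y) R} ×ˢ Set.univ) := by
      intro x hx
      refine ⟨fun hs => ?_, trivial⟩
      have key : ∀ n ∈ R, (e x).2.1 ≤ n → (n ∈ a (e x).1 ↔ i) := by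
        intro n hn hle
        have h1 := (hx n (hRB hn)).trans (hi n hn)
        simpa [A, not_lt.2 hle] using h1
      obtain ⟨n1, hn1, hn1'⟩ := hs.1.exists_gt (e x).2.1
      obtain ⟨n2, hn2, hn2'⟩ := hs.2.exists_gt (e x).2.1
      exact hn2.2 ((key n2 hn2.1 hn2'.le).2 ((key n1 hn1.1 hn1'.le).1 hn1.2))
    refine (mk_le_mk_of_subset hsub).trans_lt ?_
    rw [mk_preimage_of_injective_of_subset_range e _ e.injective (by simp), mk_setProd]
    refine mul_lt_of_lt hX.le (ha R hR) ?_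
    exact mk_le_aleph0.trans_lt hX
  have hne : ∀ B : Set ℕ, B.Finite → ∀ s, (seqComb A B s).Nonempty := by
    intro B hB s
    rw [← Set.nonempty_coe_sort, ← Cardinal.mk_ne_zero_iff, hfin B hB s]
    exact (aleph0_pos.trans hX).ne'
  have hA : Function.Injective A := by
    intro m n hmn
    by_contra hne'
    obtain ⟨x, hx⟩ := hne {m, n} (toFinite _) (fun k => k = m)
    have h1 := (hx m (by simp)).2 rfl
    rw [hmn] at h1
    exact hne' ((hx n (by simp)).1 h1).symm
  have hcomb : ∀ 𝒜 : Set (Set X), 𝒜 ⊆ range A → ∀ h : 𝒜 → Fin 2,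
      ∃ s, comb 𝒜 h = seqComb A (A ⁻¹' 𝒜) s := by
    intro 𝒜 h𝒜 h
    refine ⟨fun n => ∃ hn : A n ∈ 𝒜, h ⟨A n, hn⟩ = 0, ?_⟩
    ext x
    rw [mem_comb]
    constructor
    · intro hx n hn
      rw [hx ⟨A n, hn⟩]
      exact ⟨fun h0 => ⟨hn, h0⟩, fun ⟨_, h0⟩ => h0⟩
    · rintro hx ⟨S, hS⟩
      obtain ⟨n, rfl⟩ := h𝒜 hS
      rw [hx n hS]
      exact ⟨fun ⟨_, h0⟩ => h0, fun h0 => ⟨hS, h0⟩⟩
  refine ⟨range A, ?_, infinite_range_of_injective hA, ?_, ?_⟩
  · rintro _ ⟨n, rfl⟩
    have : A n = seqComb A {n} (fun _ => True) := by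
      ext x; simp [seqComb]
    rw [this]
    exact hfin _ (toFinite _) _
  · intro 𝒜 h𝒜 hf h
    obtain ⟨s, hs⟩ := hcomb 𝒜 h𝒜 h
    rw [hs]
    exact hfin _ (hf.preimage hA.injOn) s
  · intro 𝒜 h𝒜 _ hi h
    obtain ⟨s, hs⟩ := hcomb 𝒜 h𝒜 h
    rw [hs]
    exact hinf _ (hi.preimage h𝒜) s

end Pool.Agent.Lib.MP_ce2de7_lc
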