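import Mathlib

set_option autoImplicit false

namespace Pool.Agent.Lib.MP_ce2de7_lc

open ZFSet

/-- In `M`, `|A| ≤ |B|`: some function `f ∈ M` (a single-valued set of pairs) takes every element
of `A` as a value at an element of `B`. -/
def LeIn (M : ZFSet.{0}) (A : Set ZFSet.{0}) (B : ZFSet.{0}) : Prop :=
  ∃ f ∈ M, (∀ b a a', pair b a ∈ f → pair b a' ∈ f → a = a') ∧ ∀ a ∈ A, ∃ b ∈ B, pair b a ∈ f

/-- `A` is countable in `M`. -/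
def CountableIn (M : ZFSet.{0}) (A : Set ZFSet.{0}) : Prop := LeIn M A omega

/-- `w` is the `ω₁` of `M`: the least ordinal that is uncountable in `M`. -/
def IsOmegaOne (M w : ZFSet.{0}) : Prop :=
  w ∈ M ∧ w.IsOrdinal ∧ ¬ CountableIn M w ∧ ∀ a ∈ w, CountableIn M a

/-- `S` splits `R`: both `R ∩ S` and `R \ S` are infinite. -/
def SplitsZ (S R : ZFSet.{0}) : Prop :=
  ((R : Set ZFSet.{0}) ∩ S).Infinite ∧ ((R : Set ZFSet.{0}) \ S).Infinite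

/-- In `M`, `𝓡` is a family of infinite subsets of `ω` that no single `S ⊆ ω` splits entirely. -/
def ReapingIn (M 𝓡 : ZFSet.{0}) : Prop :=
  𝓡 ∈ M ∧ (∀ R ∈ 𝓡, R ⊆ omega ∧ (R : Set ZFSet.{0}).Infinite) ∧
    ¬ ∃ S ∈ M, S ⊆ omega ∧ ∀ R ∈ 𝓡, SplitsZ S R

/-- In `M`, `𝔯 = ω₁` (where `w` is the `ω₁` of `M`): some reaping family has size at most `ω₁`
and no reaping family is countable. -/
def ReapingNumberIs (M w : ZFSet.{0}) : Prop :=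
  (∃ 𝓡, ReapingIn M 𝓡 ∧ LeIn M 𝓡 w) ∧ ∀ 𝓡, ReapingIn M 𝓡 → ¬ CountableIn M 𝓡

/-- The Boolean combination `⋂ 𝒜^h ⊆ w`, where `H = {A ∈ 𝒜 | h A = 0}`. -/
def combZ (w 𝒜 H : ZFSet.{0}) : Set ZFSet.{0} := {a | a ∈ w ∧ ∀ A ∈ 𝒜, (a ∈ A ↔ A ∈ H)}

/-- In `M`, `I` is a barely independent family over `w = ω₁`; a subset of `ω₁` has size `ω₁` iff
it is uncountable. -/
def BarelyIn (M w I : ZFSet.{0}) : Prop :=
  I ∈ M ∧ (∀ A ∈ I, A ⊆ w ∧ ¬ CountableIn M A) ∧ (I : Set ZFSet.{0}).Infinite ∧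
  (∀ 𝒜 ∈ M, 𝒜 ⊆ I → (𝒜 : Set ZFSet.{0}).Finite →
    ∀ H ∈ M, H ⊆ 𝒜 → ¬ CountableIn M (combZ w 𝒜 H)) ∧
  ∀ 𝒜 ∈ M, 𝒜 ⊆ I → CountableIn M 𝒜 → (𝒜 : Set ZFSet.{0}).Infinite →
    ∀ H ∈ M, H ⊆ 𝒜 → CountableIn M (combZ w 𝒜 H)

end Pool.Agent.Lib.MP_ce2de7_lc
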