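import Mathlib
import Pool.Agent.Lib.Common.Iter.Props
import Pool.Agent.Lib.Common.Forcing.Model

/-!
Names and density arguments for a nice forcing.
-/

set_option autoImplicit false

namespace Pool.Agent.Lib.MP_ce2de7_lc

open Set Filter Pool.Agent.Lib.Common.Forcing Pool.Agent.Lib.Common.Iter

variable {P : Type} [Preorder P]

/-- Names of natural numbers. -/
noncomputable abbrev nn (k : ℕ) : Name P := oc (k : Ordinal.{0})

/-- Names of countable ordinals. -/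
noncomputable abbrev on (a : O1) : Name P := oc (Ordinal.ToType.toOrd a).1

theorem feq_on {a b : O1} {q : P} (h : Feq (on a) (on b) q) : a = b :=
  Ordinal.ToType.mk.symm.injective (Subtype.ext (feq_oc_iff.1 h))

/-- The name of a set of natural numbers. -/
noncomputable def rn (W : ℕ → P → Prop) : Name P := ⟨ℕ, nn, W⟩

theorem fmem_rn {W : ℕ → P → Prop} (hW : Mon W) {k : ℕ} {q : P} :
    Fmem (nn k) (rn W) q ↔ Dn (W k) q :=
  ⟨fun h _ hr =>
    let ⟨s, a, _, b, c⟩ := Fmem.elim hW h hr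
    ⟨s, a, Nat.cast_injective (R := Ordinal.{0}) (feq_oc_iff.1 c) ▸ b⟩,
  fun h => Fmem.reg fun r hr =>
    let ⟨s, a, b⟩ := h r hr
    ⟨s, a, Fmem.intro k b (Feq.refl _ _)⟩⟩

theorem lit_reg {ε : Bool} {W : P → Prop} (hW : ∀ p q, W p → q ≤ p → W q) {q : P}
    (h : Dn (Lit ε W) q) : Lit ε W q := by
  cases ε
  exacts [Neg.reg hW h, Dn.reg h]

theorem lit_congr {ε : Bool} {W W' : P → Prop} {q : P} (h : Lit ε W q)
    (h' : ∀ r ≤ q, W r ↔ W' r) : Lit ε W' q := by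
  cases ε
  · exact fun r hr h1 => h r hr ((h' r hr).2 h1)
  · exact fun r hr => let ⟨s, a, b⟩ := h r hr; ⟨s, a, (h' s (a.trans hr)).1 b⟩

theorem lit_rn {ε : Bool} {W : ℕ → P → Prop} (hW : Mon W) {k : ℕ} {q : P} (h : Lit ε (W k) q) :
    Lit ε (Fmem (nn k) (rn W)) q := by
  cases ε
  · exact fun r hr h1 => let ⟨s, a, b⟩ := (fmem_rn hW).1 h1 r le_rfl; h s (a.trans hr) b
  · exact fun r hr => ⟨r, le_rfl, (fmem_rn hW).2 (Dn.mono h hr)⟩

/-- `G i` holds and `i` is least possible. -/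
def First {ι : Type} (G : ι → P → Prop) (i : ι) (q : P) : Prop :=
  G i q ∧ ∀ i', WellOrderingRel i' i → Neg (G i') q

theorem exists_first {ι : Type} {G : ι → P → Prop} {i : ι} {q : P} (h : G i q) :
    ∃ r ≤ q, ∃ j, First G j r := by
  obtain ⟨j, ⟨r, a, b⟩, c⟩ := (WellOrderingRel.isWellOrder (α := ι)).wf.has_min
    {j | ∃ r ≤ q, G j r} ⟨i, q, le_rfl, h⟩
  exact ⟨r, a, j, b, fun j' hj s hs h' => c j' ⟨s, hs.trans a, h'⟩ hj⟩

/-- Mixing of names. -/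
def mix {ι : Type} (B : ι → Name P) (G : ι → P → Prop) : Name P :=
  ⟨Σ i, (B i).ι, fun j => (B j.1).A j.2, fun j q => First G j.1 q ∧ (B j.1).act j.2 q⟩

theorem feq_mix {ι : Type} {B : ι → Name P} {G : ι → P → Prop} (hG : Mon G) {i : ι} {q : P}
    (h : First G i q) : Feq (mix B G) (B i) q := by
  refine Feq.ext (fsub_of_act ?_) (fsub_of_act fun k r hr hk =>
    Fmem.intro (⟨i, k⟩ : Σ i, (B i).ι) ⟨⟨hG _ _ _ h.1 hr, fun j hj => (h.2 j hj).mono hr⟩, hk⟩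
      (Feq.refl _ _))
  rintro ⟨j, k⟩ r hr ⟨s, hs, h1, h2⟩
  rcases trichotomous_of WellOrderingRel i j with h3 | rfl | h3
  · exact absurd (hG _ _ _ h.1 hr) (h1.2 i h3 r hs)
  · exact Fmem.of_act k (Name.act.mono h2 hs) (Feq.refl _ _)
  · exact absurd (hG _ _ _ h1.1 hs) (h.2 j h3 r hr)

/-- A child of `τ` different from the names in `l`. -/
def New (τ : Name P) (l : List (Name P)) (i : τ.ι) (q : P) : Prop :=
  τ.act i q ∧ ∀ σ ∈ l, Neg (Feq (τ.A i) σ) q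

theorem mon_new (τ : Name P) (l : List (Name P)) : Mon (New τ l) :=
  fun _ _ _ h hq => ⟨h.1.mono hq, fun σ hσ => (h.2 σ hσ).mono hq⟩

/-- Lists of names of distinct elements of `τ`. -/
def sq (τ : Name P) : ℕ → List (Name P)
  | 0 => []
  | n + 1 => mix τ.A (New τ (sq τ n)) :: sq τ n

theorem length_sq (τ : Name P) (n : ℕ) : (sq τ n).length = n := by
  induction n <;> simp [sq, *]

theorem mem_sq (τ : Name P) {m n : ℕ} (h : m < n) : mix τ.A (New τ (sq τ m)) ∈ sq τ n := by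
  induction n with
  | zero => omega
  | succ n ih =>
    rcases Nat.lt_succ_iff_lt_or_eq.1 h with h | rfl
    · exact List.mem_cons_of_mem _ (ih h)
    · exact List.mem_cons_self

/-- `τ` has `k` distinct elements. -/
def Many (τ : Name P) (k : ℕ) (q : P) : Prop :=
  ∃ A : Fin k → Name P, (∀ i, Fmem (A i) τ q) ∧ ∀ i j, i ≠ j → Neg (Feq (A i) (A j)) q

theorem exists_avoid {I : Type} [DecidableEq I] (B : I → Name P) (l : List (Name P)) :
    ∀ (s : Finset I) (r : P), l.length < s.card →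
      (∀ i j, i ≠ j → Neg (Feq (B i) (B j)) r) →
        ∃ r' ≤ r, ∃ j ∈ s, ∀ σ ∈ l, Neg (Feq (B j) σ) r' := by
  induction l with
  | nil =>
    intro s r h _
    obtain ⟨j, hj⟩ := Finset.card_pos.1 h
    exact ⟨r, le_rfl, j, hj, by simp⟩
  | cons σ l ih =>
    intro s r h h'
    rw [List.length_cons] at h
    by_cases h1 : ∃ r' ≤ r, ∃ j ∈ s, Feq (B j) σ r'
    · obtain ⟨r', a, j, b, c⟩ := h1
      obtain ⟨r'', d, j', e, f⟩ := ih (s.erase j) r' (by rw [Finset.card_erase_of_mem b]; omega)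
        fun i j hij => (h' i j hij).mono a
      refine ⟨r'', d.trans a, j', Finset.mem_of_mem_erase e, List.forall_mem_cons.2
        ⟨fun t ht h2 => ?_, f⟩⟩
      exact h' j' j (Finset.ne_of_mem_erase e) t (ht.trans (d.trans a))
        (h2.trans (c.mono (ht.trans d)).symm)
    · obtain ⟨r', d, j, e, f⟩ := ih s r (by omega) h'
      exact ⟨r', d, j, e, List.forall_mem_cons.2
        ⟨fun t ht h2 => h1 ⟨t, ht.trans d, j, e, h2⟩, f⟩⟩

theorem exists_seq {τ : Name P} {p : P} (h : ∀ k, Dn (Many τ k) p) : ∃ A : ℕ → Name P,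
    (∀ n, Fmem (A n) τ p) ∧ ∀ n m, n ≠ m → Neg (Feq (A n) (A m)) p := by
  have h1 : ∀ n, Dn (fun r => ∃ i, New τ (sq τ n) i r ∧
      Feq (mix τ.A (New τ (sq τ n))) (τ.A i) r) p := fun n q hq => by
    obtain ⟨r, a, B, b, c⟩ := h (n + 1) q hq
    obtain ⟨r', d, j, -, e⟩ := exists_avoid B (sq τ n) Finset.univ r (by simp [length_sq]) c
    obtain ⟨r'', f, i, g, k⟩ := b j r' d
    obtain ⟨t, u, i', v⟩ := exists_first (G := New τ (sq τ n)) (i := i) (q := r'')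
      ⟨g, fun σ hσ t ht h2 => e σ hσ t (ht.trans f) ((k.mono ht).trans h2)⟩
    exact ⟨t, u.trans (f.trans (d.trans a)), i', v.1, feq_mix (mon_new _ _) v⟩
  have h2 : ∀ n m, m < n →
      Neg (Feq (mix τ.A (New τ (sq τ n))) (mix τ.A (New τ (sq τ m)))) p := fun n m hm r hr h3 =>
    let ⟨s, a, _, b, c⟩ := h1 n r hr
    b.2 _ (mem_sq τ hm) s le_rfl (c.symm.trans (h3.mono a))
  refine ⟨fun n => mix τ.A (New τ (sq τ n)), fun n q hq => ?_, fun n m hnm => ?_⟩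
  · obtain ⟨r, a, i, b, c⟩ := h1 n q hq
    exact ⟨r, a, i, b.1, c⟩
  · rcases lt_or_gt_of_ne hnm with h3 | h3
    · exact fun r hr h4 => h2 m n h3 r hr h4.symm
    · exact h2 n m h3

/-- `φ` is single-valued. -/
def Fun (φ : Name P) (q : P) : Prop :=
  ∀ a ρ ρ', ∀ r ≤ q, Fmem (op a ρ) φ r → Fmem (op a ρ') φ r → Feq ρ ρ' r

/-- The ordinal `a` is on the side `ε` of all elements of `σ`. -/
def Cmb (ε : Bool) (a : O1) (σ : Name P) (q : P) : Prop :=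
  ∀ ρ, ∀ r ≤ q, Fmem ρ σ r → Lit ε (Fmem (on a) ρ) r

/-- Unboundedly many ordinals are on the side `ε` of all elements of `σ`. -/
def Unb (ε : Bool) (σ : Name P) (q : P) : Prop :=
  ∀ b, Dn (fun r => ∃ a, b ≤ a ∧ Cmb ε a σ r) q

theorem dense_miss (hP : Nice P) {φ σ : Name P} {ε : Bool} {q : P} (h1 : Fun φ q)
    (h2 : Unb ε σ q) : ∃ r ≤ q, ∃ a : O1,
      (∀ n, Neg (Fmem (op (nn n) (on a)) φ) r) ∧ Cmb ε a σ r := by
  obtain ⟨a₀, -⟩ := O1.bdd countable_empty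
  obtain ⟨q₁, a1, b, a2⟩ := hP.bdd (fun (n : ℕ) a r => Fmem (op (nn n) (on a)) φ r ∨
      Neg (fun t => ∃ a', Fmem (op (nn n) (on a')) φ t) r)
    (fun n a _ _ h hq => h.imp (fun h => h.mono hq) fun h => h.mono hq) q fun n r _ =>
      let ⟨t, c, d⟩ := exists_decide (fun t => ∃ a', Fmem (op (nn n) (on a')) φ t) r
      ⟨t, c, d.elim (fun ⟨a, e⟩ => ⟨a, Or.inl e⟩) fun e => ⟨a₀, Or.inr e⟩⟩
  obtain ⟨r, c, a, d, e⟩ := h2 b q₁ a1
  refine ⟨r, c.trans a1, a, fun n t ht h3 => ?_, e⟩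
  obtain ⟨t', f, a', g, k | k⟩ := a2 n t (ht.trans c)
  · obtain rfl := feq_on (h1 _ _ _ t' (f.trans (ht.trans (c.trans a1))) (h3.mono f) k)
    exact g.not_ge d
  · exact k t' le_rfl ⟨a, h3.mono f⟩

theorem dense_main (hP : Nice P) {τ : Name P} {p : P} (h : ∀ k, Dn (Many τ k) p) :
    ∃ q ≤ p, ∃ (A : ℕ → Name P) (W : ℕ → P → Prop) (ε : Bool), Mon W ∧ (∀ n, Fmem (A n) τ q) ∧
      (∀ n m, n ≠ m → Neg (Feq (A n) (A m)) q) ∧ (∀ N t, ∃ r ≤ t, ∃ k, N ≤ k ∧ W k r) ∧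
        Unb ε ⟨ℕ, A, W⟩ q := by
  obtain ⟨A, h1, h2⟩ := exists_seq h
  obtain ⟨x, a1, a2, a3⟩ := hP.unsplit (fun a n => Fmem (on a) (A n)) fun _ _ _ _ => Fmem.mono
  obtain ⟨q, b1, m, ε, b2⟩ : ∃ q ≤ p, ∃ m ε, ∀ b, Dn (fun r => ∃ a, b ≤ a ∧
      ∀ n, m ≤ n → ∀ t ≤ r, x n t → Lit ε (Fmem (on a) (A n)) t) q := by
    by_contra hc
    obtain ⟨q₁, -, b, c⟩ := hP.bdd (fun (k : ℕ × Bool) b => Neg fun r => ∃ a, b ≤ a ∧
      ∀ n, k.1 ≤ n → ∀ t ≤ r, x n t → Lit k.2 (Fmem (on a) (A n)) t)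
      (fun _ _ _ _ => Neg.mono) p fun k q hq => by
        by_contra hd
        exact hc ⟨q, hq, k.1, k.2, fun b => dn_of_not_neg fun r hr h3 => hd ⟨r, hr, b, h3⟩⟩
    obtain ⟨q₂, d, m, ε, e⟩ := a3 b q₁
    obtain ⟨r, f, b', g, k⟩ := c (m, ε) q₂ d
    exact k r le_rfl ⟨b, g.le, fun n hn t ht => e n hn t (ht.trans f)⟩
  have hW : Mon fun n r => m ≤ n ∧ x n r := fun n _ _ h hq => ⟨h.1, a1 n _ _ h.2 hq⟩
  refine ⟨q, b1, A, _, ε, hW, fun n => (h1 n).mono b1, fun n k h => (h2 n k h).mono b1,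
    fun N t => ?_, fun b r hr => ?_⟩
  · obtain ⟨r, c, k, d, e⟩ := a2 (max N m) t
    exact ⟨r, c, k, by omega, by omega, e⟩
  · obtain ⟨s, c, a, d, e⟩ := b2 b r hr
    refine ⟨s, c, a, d, fun ρ t ht h3 => lit_reg (fun _ _ => Fmem.mono) fun u hu => ?_⟩
    obtain ⟨v, f, n, g, k⟩ := Fmem.elim hW h3 hu
    exact ⟨v, f, lit_congr (e n g.1 v (f.trans (hu.trans ht)) g.2) fun w hw =>
      ⟨fun h => h.congr_right (k.mono hw).symm, fun h => h.congr_right (k.mono hw)⟩⟩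

end Pool.Agent.Lib.MP_ce2de7_lc
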