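import Mathlib
import Pool.Agent.Lib.MP_ce2de7_lc.ConDefs
import Pool.Agent.Lib.MP_ce2de7_lc.Names

/-!
The generic extension by a nice forcing.
-/

set_option autoImplicit false

namespace Pool.Agent.Lib.MP_ce2de7_lc

open Set Filter Pool.Agent.Lib.Common.Forcing Pool.Agent.Lib.Common.Iter

variable {P : Type} [Preorder P]

/-- The name of a ground model infinite set. -/
noncomputable def chk (V : X) : Name P := rn fun k _ => k ∈ V.1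

/-- The name of the collapsing function. -/
noncomputable def colN (C : O1 × X → P → Prop) : Name P :=
  ⟨O1 × X, fun w => op (on w.1) (chk w.2), C⟩

/-- The name of an enumeration. -/
noncomputable def enum (A : ℕ → Name P) : Name P := fam fun n => op (nn n) (A n)

/-- The values of `φ` at `n` contain `k`. -/
def Val (φ : Name P) (n k : ℕ) (t : P) : Prop :=
  ∃ ρ, Fmem (op (nn n) ρ) φ t ∧ Fmem (nn k) ρ t

/-- A generic object meeting all tasks needed below. -/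
structure Rich (C : O1 × X → P → Prop) (g : Gen P) : Prop where
  m1 : oc (Ordinal.omega 1) ∈ g.N
  m2 : fam chk ∈ g.N
  m3 : colN C ∈ g.N
  cnt : ∀ a : O1, on a ∈ g.N → ∃ e : ℕ → O1, Iio a ⊆ range e ∧ enum (fun n => on (e n)) ∈ g.N
  jf : g.Meets fun l S q => ∃ a ∈ S, ∃ ρ ∈ S, ∃ ρ' ∈ S, Fmem (op a ρ) (l.getD 0 emp) q ∧
    Fmem (op a ρ') (l.getD 0 emp) q ∧ Neg (Feq ρ ρ') q
  ji : g.Meets fun l _ q => ∃ N, ∀ k, N ≤ k → Neg (Fmem (nn k) (l.getD 0 emp)) q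
  jx : ∀ N ε, g.Meets fun l _ q => ∃ k, N ≤ k ∧ Fmem (nn k) (l.getD 0 emp) q ∧
    Lit ε (Fmem (nn k) (l.getD 1 emp)) q
  js : g.Meets fun l S q => ∃ s, Mon s ∧ rn s ∈ S ∧ ∀ n, ∀ r ≤ q,
    (∀ N, Dn (fun t => ∃ k, N ≤ k ∧ Val (l.getD 0 emp) n k t) r) →
      ∀ ε N, Dn (fun t => ∃ k, N ≤ k ∧ Dn (Val (l.getD 0 emp) n k) t ∧ Lit ε (s k) t) r
  jc : g.Meets fun l S q => ∃ a : O1, on a ∈ S ∧ Fmem (op (on a) (l.getD 0 emp)) (colN C) q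
  jr : g.Meets fun l S q => ∃ V ε, chk V ∈ S ∧ ∀ k ∈ V.1, Lit ε (Fmem (nn k) (l.getD 0 emp)) q
  jk : g.Meets fun l _ q => ∃ k, Neg (Many (l.getD 0 emp) k) q
  jM : g.Meets fun l S q => ∃ (A : ℕ → Name P) (W : ℕ → P → Prop) (ε : Bool),
    (⟨ℕ, A, W⟩ ∈ S ∧ enum A ∈ S ∧ rn W ∈ S) ∧ Mon W ∧ (∀ n, Fmem (A n) (l.getD 0 emp) q) ∧
      (∀ n m, n ≠ m → Neg (Feq (A n) (A m)) q) ∧ (∀ N t, ∃ r ≤ t, ∃ k, N ≤ k ∧ W k r) ∧
        Unb ε ⟨ℕ, A, W⟩ q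
  jm : ∀ ε, g.Meets fun l S q => ∃ a : O1, on a ∈ S ∧
    (∀ n, Neg (Fmem (op (nn n) (on a)) (l.getD 0 emp)) q) ∧ Cmb ε a (l.getD 1 emp) q

theorem exists_rich (C : O1 × X → P → Prop) (p : P) : ∃ g : Gen P, Rich C g := by
  have he : ∀ a : O1, ∃ e : ℕ → O1, Iio a ⊆ range e := fun a =>
    let ⟨e, h⟩ := ((O1.countable_Iio a).insert a).exists_eq_range (insert_nonempty _ _)
    ⟨e, h ▸ subset_insert _ _⟩
  choose e he using he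
  let F : List (Name P) → Set (Name P) := fun l => {oc (Ordinal.omega 1), fam chk, colN C} ∪
    {σ | ∃ a : O1, l = [on a] ∧ σ = enum fun n => on (e a n)}
  have hF : ∀ l, (F l).Countable := fun l => (toFinite _).countable.union
    (Set.Subsingleton.countable (by
      rintro _ ⟨a, rfl, rfl⟩ _ ⟨b, h, rfl⟩
      rw [feq_on (a := a) (b := b) (q := p) ((List.cons.inj h).1 ▸ Feq.refl _ _)]))
  let J : ℕ → ℕ → Bool → Job P := fun i N ε => match i with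
    | 0 => fun l S _ => F l ⊆ S
    | 1 => fun l S q => ∃ a ∈ S, ∃ ρ ∈ S, ∃ ρ' ∈ S, Fmem (op a ρ) (l.getD 0 emp) q ∧
        Fmem (op a ρ') (l.getD 0 emp) q ∧ Neg (Feq ρ ρ') q
    | 2 => fun l _ q => ∃ N, ∀ k, N ≤ k → Neg (Fmem (nn k) (l.getD 0 emp)) q
    | 3 => fun l _ q => ∃ k, N ≤ k ∧ Fmem (nn k) (l.getD 0 emp) q ∧
        Lit ε (Fmem (nn k) (l.getD 1 emp)) q
    | 4 => fun l S q => ∃ s, Mon s ∧ rn s ∈ S ∧ ∀ n, ∀ r ≤ q,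
        (∀ N, Dn (fun t => ∃ k, N ≤ k ∧ Val (l.getD 0 emp) n k t) r) →
          ∀ ε N, Dn (fun t => ∃ k, N ≤ k ∧ Dn (Val (l.getD 0 emp) n k) t ∧ Lit ε (s k) t) r
    | 5 => fun l S q => ∃ a : O1, on a ∈ S ∧ Fmem (op (on a) (l.getD 0 emp)) (colN C) q
    | 6 => fun l S q => ∃ V ε, chk V ∈ S ∧ ∀ k ∈ V.1, Lit ε (Fmem (nn k) (l.getD 0 emp)) q
    | 7 => fun l _ q => ∃ k, Neg (Many (l.getD 0 emp) k) q
    | 8 => fun l S q => ∃ (A : ℕ → Name P) (W : ℕ → P → Prop) (ε : Bool),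
        (⟨ℕ, A, W⟩ ∈ S ∧ enum A ∈ S ∧ rn W ∈ S) ∧ Mon W ∧ (∀ n, Fmem (A n) (l.getD 0 emp) q) ∧
        (∀ n m, n ≠ m → Neg (Feq (A n) (A m)) q) ∧ (∀ N t, ∃ r ≤ t, ∃ k, N ≤ k ∧ W k r) ∧
          Unb ε ⟨ℕ, A, W⟩ q
    | _ => fun l S q => ∃ a : O1, on a ∈ S ∧
        (∀ n, Neg (Fmem (op (nn n) (on a)) (l.getD 0 emp)) q) ∧ Cmb ε a (l.getD 1 emp) q
  obtain ⟨g, -, hg⟩ := exists_gen (range fun w : ℕ × ℕ × Bool => J w.1 w.2.1 w.2.2)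
    (countable_range _) p
  have h : ∀ i N ε, g.Meets (J i N ε) := fun i N ε => hg _ ⟨(i, N, ε), rfl⟩
  have h0 := PreGen.Meets.closed hF (h 0 0 true)
  exact ⟨g, h0 [] (by simp) (Or.inl (by simp)), h0 [] (by simp) (Or.inl (by simp)),
    h0 [] (by simp) (Or.inl (by simp)),
    fun a ha => ⟨e a, he a, h0 [on a] (Gen.l1 ha) (Or.inr ⟨a, rfl, rfl⟩)⟩, h 1 0 true, h 2 0 true,
    h 3, h 4 0 true, h 5 0 true, h 6 0 true, h 7 0 true, h 8 0 true, h 9 0⟩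

variable {g : Gen P} {C : O1 × X → P → Prop}

theorem ev_of {u : P → Prop} {n : ℕ} (h : ∀ q ≤ g.h n, u q) : ∀ᶠ q in g.fil, u q := ⟨n, h⟩

theorem of_dense {W : Job P} (hW : g.Meets W) {l : List (Name P)} (hl : ∀ x ∈ l, x ∈ g.N)
    (hd : ∀ᶠ q in g.fil, ∃ r ≤ q, ∃ S : Set (Name P), S.Countable ∧ W l S r) :
    ∃ n, ∃ S ⊆ g.N, W l S (g.h n) := by
  obtain ⟨n, h | h⟩ := hW l hl
  · exact ⟨n, h⟩
  · obtain ⟨q, h1, r, a, S, b, c⟩ := ((ev_of (u := (· ≤ g.h n)) fun _ h => h).and hd).exists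
    exact absurd c (h r (a.trans h1) S b)

/-- Von Neumann numerals. -/
noncomputable abbrev nz (k : ℕ) : ZFSet.{0} := (k : Ordinal.{0}).toZFSet

theorem nz_inj : Function.Injective nz := fun _ _ h =>
  Nat.cast_injective (R := Ordinal.{0}) (Ordinal.toZFSet_injective h)

theorem infinite_of_nz {S : Set ZFSet.{0}} (h : ∀ N, ∃ k, N ≤ k ∧ nz k ∈ S) : S.Infinite := by
  intro hS
  obtain ⟨N, hN⟩ := (hS.preimage nz_inj.injOn).bddAbove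
  obtain ⟨k, a, b⟩ := h (N + 1)
  have := hN b
  omega

theorem nz_of_infinite {S : Set ZFSet.{0}} (h : S.Infinite) (hS : ∀ x ∈ S, x ∈ ZFSet.omega)
    (N : ℕ) : ∃ k, N ≤ k ∧ nz k ∈ S :=
  let ⟨k, a, b⟩ := (h.preimage (f := nz) fun x hx => mem_omega_iff.1 (hS x hx)).exists_gt N
  ⟨k, b.le, a⟩

theorem lit_iff {σ τ : Name P} (hσ : σ ∈ g.N) (hτ : τ ∈ g.N) {ε : Bool}
    (h : ∀ᶠ q in g.fil, Lit ε (Fmem σ τ) q) : g.π σ ∈ g.π τ ↔ ε = true := by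
  rw [Gen.π_mem_iff hσ hτ]
  cases ε
  · exact ⟨fun h' => (PreGen.ev_not_neg h' h).elim, fun h' => absurd h' (by simp)⟩
  · exact ⟨fun _ => rfl, fun _ => h.mono fun q hq => Fmem.reg hq⟩

theorem nz_mem_iff {k : ℕ} {τ : Name P} (hτ : τ ∈ g.N) :
    nz k ∈ g.π τ ↔ ∀ᶠ q in g.fil, Fmem (nn k) τ q := by
  rw [← Gen.π_mem_iff (Gen.nat_mem k) hτ, Gen.π_nat]

theorem rn_sub {W : ℕ → P → Prop} (h : rn W ∈ g.N) : g.π (rn W) ⊆ ZFSet.omega := fun x hx => by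
  obtain ⟨i, -, rfl, -⟩ := Gen.exists_child h hx
  exact mem_omega_iff.2 ⟨i, (Gen.π_nat i).symm⟩

theorem mem_chk {V : X} (h : chk V ∈ g.N) {k : ℕ} : nz k ∈ g.π (chk V) ↔ k ∈ V.1 := by
  rw [nz_mem_iff h]
  have hm : Mon fun (k : ℕ) (_ : P) => k ∈ V.1 := fun _ _ _ h _ => h
  exact ⟨fun h1 => let ⟨q, a⟩ := h1.exists; let ⟨_, _, b⟩ := (fmem_rn hm).1 a q le_rfl; b,
    fun h1 => Eventually.of_forall fun q => (fmem_rn hm).2 fun r _ => ⟨r, le_rfl, h1⟩⟩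

theorem enum_mem {A : ℕ → Name P} (h : enum A ∈ g.N) (n : ℕ) : A n ∈ g.N :=
  (Gen.of_op_mem (Gen.fam_kids h n)).2

theorem mem_enum {A : ℕ → Name P} (h : enum A ∈ g.N) {x : ZFSet.{0}} :
    x ∈ g.π (enum A) ↔ ∃ n, (nz n).pair (g.π (A n)) = x := by
  rw [enum, Gen.mem_π_fam h (Gen.fam_kids h)]
  exact exists_congr fun n => by rw [Gen.π_op (Gen.nat_mem n) (enum_mem h n), Gen.π_nat]

theorem countable_enum {A : ℕ → Name P} (h : enum A ∈ g.N) {S : Set ZFSet.{0}}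
    (hS : ∀ x ∈ S, ∃ n, g.π (A n) = x) : CountableIn g.M S := by
  refine ⟨_, Gen.π_mem_M h, fun b a a' h1 h2 => ?_, fun x hx => ?_⟩
  · obtain ⟨n, h3⟩ := (mem_enum h).1 h1
    obtain ⟨m, h4⟩ := (mem_enum h).1 h2
    rw [ZFSet.pair_inj] at h3 h4
    rw [← h3.2, ← h4.2, nz_inj (h3.1.trans h4.1.symm)]
  · obtain ⟨n, rfl⟩ := hS x hx
    exact ⟨nz n, mem_omega_iff.2 ⟨n, rfl⟩, (mem_enum h).2 ⟨n, rfl⟩⟩

theorem Rich.mem_w (h : Rich C g) {x : ZFSet.{0}} :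
    x ∈ g.π (oc (Ordinal.omega 1)) ↔ ∃ a : O1, on a ∈ g.N ∧ g.π (on a) = x := by
  constructor
  · intro hx
    obtain ⟨a, h1, h2⟩ := Gen.exists_of_mem_π_oc h.m1 hx
    exact ⟨Ordinal.ToType.mk ⟨a, h1⟩, by
      simpa only [on, Ordinal.ToType.toOrd, OrderIso.symm_apply_apply] using h2⟩
  · rintro ⟨a, h1, rfl⟩
    exact (Gen.π_oc_mem_iff h1 h.m1).2 (Ordinal.ToType.toOrd a).2

theorem Rich.ev_fun (h : Rich C g) {φ : Name P} (hφ : φ ∈ g.N)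
    (hf : ∀ b a a', ZFSet.pair b a ∈ g.π φ → ZFSet.pair b a' ∈ g.π φ → a = a') :
    ∀ᶠ q in g.fil, Fun φ q := by
  obtain ⟨n, ⟨S, hS, a, a1, ρ, a2, ρ', a3, a4, a5, a6⟩ | h1⟩ := h.jf [φ] (Gen.l1 hφ)
  · exact (PreGen.ev_not_neg ((Gen.π_eq_iff (hS a2) (hS a3)).1 (hf _ _ _
      ((Gen.pair_mem_iff (hS a1) (hS a2) hφ).2 (ev_of fun q hq => a4.mono hq))
      ((Gen.pair_mem_iff (hS a1) (hS a3) hφ).2 (ev_of fun q hq => a5.mono hq))))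
      (ev_of fun q hq => a6.mono hq)).elim
  · refine ev_of (n := n) fun q hq a ρ ρ' r hr h2 h3 => Feq.reg (dn_of_not_neg fun t ht h4 => ?_)
    exact h1 t (ht.trans (hr.trans hq)) {a, ρ, ρ'} (toFinite _).countable
      ⟨a, by simp, ρ, by simp, ρ', by simp, h2.mono ht, h3.mono ht, h4⟩

theorem Rich.miss (h : Rich C g) (hP : Nice P) {σ : Name P} (hσ : σ ∈ g.N) {ε : Bool}
    (hU : ∀ᶠ q in g.fil, Unb ε σ q) :
    ¬ CountableIn g.M {a | a ∈ g.π (oc (Ordinal.omega 1)) ∧ ∀ A ∈ g.π σ, (a ∈ A ↔ ε = true)} := by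
  rintro ⟨f, hf, h1, h2⟩
  obtain ⟨φ, hφ, rfl⟩ := Gen.mem_M.1 hf
  obtain ⟨n, S, hS, a, a1, a2, a3⟩ := of_dense (h.jm ε) (Gen.l2 hφ hσ) (by
    filter_upwards [h.ev_fun hφ h1, hU] with q b1 b2
    obtain ⟨r, c, a, d⟩ := dense_miss hP b1 b2
    exact ⟨r, c, {on a}, countable_singleton _, a, rfl, d⟩)
  obtain ⟨b, b1, b2⟩ := h2 (g.π (on a)) ⟨h.mem_w.2 ⟨a, hS a1, rfl⟩, fun A hA => by
    obtain ⟨ρ, c1, rfl, c2⟩ := Gen.exists_of_mem_π hA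
    refine lit_iff (hS a1) c1 ?_
    filter_upwards [c2, ev_of (u := (· ≤ g.h n)) fun _ h => h] with q d1 d2 using a3 ρ q d2 d1⟩
  obtain ⟨k, rfl⟩ := mem_omega_iff.1 b1
  rw [← Gen.π_nat (g := g), Gen.pair_mem_iff (Gen.nat_mem k) (hS a1) hφ] at b2
  exact PreGen.ev_not_neg b2 (ev_of fun q hq => (a2 k).mono hq)

theorem Rich.omegaOne (h : Rich C g) (hP : Nice P) :
    IsOmegaOne g.M (g.π (oc (Ordinal.omega 1))) := by
  refine ⟨Gen.π_mem_M h.m1, Gen.isOrdinal_π_oc _ h.m1, fun h1 => h.miss hP g.emp_mem (ε := true)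
    (Eventually.of_forall fun q b r _ => ⟨r, le_rfl, b, le_rfl, fun ρ t _ h2 =>
      (not_fmem_emp _ _ h2).elim⟩) ?_, fun x hx => ?_⟩
  · obtain ⟨f, a, b, c⟩ := h1
    exact ⟨f, a, b, fun x hx => c x hx.1⟩
  · obtain ⟨a, h1, rfl⟩ := h.mem_w.1 hx
    obtain ⟨e, h2, h3⟩ := h.cnt a h1
    refine countable_enum h3 fun y hy => ?_
    obtain ⟨b, h4, rfl⟩ := h.mem_w.1 ((Gen.isOrdinal_π_oc _ h.m1).isTransitive.mem_trans hy hx)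
    rw [SetLike.mem_coe, Gen.π_oc_mem_iff h4 h1] at hy
    obtain ⟨n, rfl⟩ := h2 (Ordinal.ToType.mk.symm.lt_iff_lt.1 hy)
    exact ⟨n, rfl⟩

theorem Rich.small (h : Rich C g) (hP : Nice P) (hC : Mon C)
    (h1 : ∀ a V V' q, C (a, V) q → C (a, V') q → V = V') (h2 : ∀ V p, ∃ q ≤ p, ∃ a, C (a, V) q) :
    ReapingIn g.M (g.π (fam chk)) ∧
      LeIn g.M (g.π (fam chk)) (g.π (oc (Ordinal.omega 1))) := by
  have hm : ∀ R ∈ g.π (fam chk), ∃ V, chk V ∈ g.N ∧ g.π (chk V) = R := fun R hR =>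
    let ⟨V, a, b, _⟩ := Gen.exists_child h.m2 hR
    ⟨V, a, b⟩
  refine ⟨⟨Gen.π_mem_M h.m2, fun R hR => ?_, ?_⟩, _, Gen.π_mem_M h.m3,
    fun b a a' h3 h4 => ?_, fun R hR => ?_⟩
  · obtain ⟨V, a, rfl⟩ := hm R hR
    exact ⟨rn_sub a, infinite_of_nz fun N =>
      let ⟨k, b, c⟩ := V.2.exists_gt N
      ⟨k, c.le, (mem_chk a).2 b⟩⟩
  · rintro ⟨S, hS, -, h3⟩
    obtain ⟨σ, hσ, rfl⟩ := Gen.mem_M.1 hS
    obtain ⟨n, S, hS, V, ε, a1, a2⟩ := of_dense h.jr (Gen.l1 hσ) (Eventually.of_forall fun q =>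
      let ⟨r, b, V, c⟩ := hP.reap (fun k => Fmem (nn k) σ) (fun _ _ _ => Fmem.mono) q
      ⟨r, b, {chk V}, countable_singleton _, V, c.imp fun _ d => ⟨rfl, d⟩⟩)
    have h4 : ∀ x ∈ g.π (chk V), (x ∈ g.π σ ↔ ε = true) := fun x hx => by
      obtain ⟨k, rfl⟩ := mem_omega_iff.1 (rn_sub (hS a1) hx)
      rw [← Gen.π_nat (g := g)]
      exact lit_iff (Gen.nat_mem k) hσ (ev_of fun q hq => (a2 k ((mem_chk (hS a1)).1 hx)).mono hq)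
    obtain ⟨b1, b2⟩ := h3 _ ((Gen.π_mem_iff (hS a1) h.m2).2
      (Eventually.of_forall fun q => fmem_fam_self chk V q))
    cases ε
    · obtain ⟨x, c, d⟩ := b1.nonempty
      simpa using (h4 x c).1 d
    · obtain ⟨x, c, d⟩ := b2.nonempty
      exact d ((h4 x c).2 rfl)
  · obtain ⟨⟨α, V⟩, a1, a2, a3⟩ := Gen.exists_child h.m3 h3
    obtain ⟨⟨α', V'⟩, b1, b2, b3⟩ := Gen.exists_child h.m3 h4
    obtain ⟨a4, a5⟩ := Gen.of_op_mem a1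
    obtain ⟨b4, b5⟩ := Gen.of_op_mem b1
    have a6 := ZFSet.pair_inj.1 ((Gen.π_op a4 a5).symm.trans a2)
    have b6 := ZFSet.pair_inj.1 ((Gen.π_op b4 b5).symm.trans b2)
    obtain ⟨q, c⟩ := ((Gen.π_eq_iff a4 b4).1 (a6.1.trans b6.1.symm)).exists
    obtain rfl : α = α' := feq_on c
    obtain ⟨q, ⟨s, c1, c2⟩, t, c3, c4⟩ := (a3.and b3).exists
    obtain rfl := h1 α V V' q (hC _ _ _ c2 c1) (hC _ _ _ c4 c3)
    exact a6.2.symm.trans b6.2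
  · obtain ⟨V, a, rfl⟩ := hm R hR
    obtain ⟨n, S, hS, α, a1, a2⟩ := of_dense h.jc (Gen.l1 a) (Eventually.of_forall fun q =>
      let ⟨r, b, α, c⟩ := h2 V q
      ⟨r, b, {on α}, countable_singleton _, α, rfl, Fmem.intro (α, V) c (Feq.refl _ _)⟩)
    exact ⟨_, h.mem_w.2 ⟨α, hS a1, rfl⟩,
      (Gen.pair_mem_iff (hS a1) a h.m3).2 (ev_of fun q hq => a2.mono hq)⟩

theorem Rich.wit (h : Rich C g) {ρ σ : Name P} (hρ : ρ ∈ g.N) (hσ : σ ∈ g.N) {N : ℕ} {ε : Bool}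
    (hd : ∀ᶠ q in g.fil, ∃ r ≤ q, ∃ k, N ≤ k ∧ Fmem (nn k) ρ r ∧ Lit ε (Fmem (nn k) σ) r) :
    ∃ k, N ≤ k ∧ nz k ∈ g.π ρ ∧ (nz k ∈ g.π σ ↔ ε = true) := by
  obtain ⟨n, -, -, k, a1, a2, a3⟩ := of_dense (h.jx N ε) (Gen.l2 hρ hσ)
    (hd.mono fun q ⟨r, a, b⟩ => ⟨r, a, ∅, countable_empty, b⟩)
  refine ⟨k, a1, (nz_mem_iff hρ).2 (ev_of fun q hq => a2.mono hq), ?_⟩
  rw [nz, ← Gen.π_nat (g := g)]
  exact lit_iff (Gen.nat_mem k) hσ (ev_of fun q hq => a3.mono hq)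

theorem Rich.large (h : Rich C g) (hP : Nice P) {𝓡 : ZFSet.{0}} (hR : ReapingIn g.M 𝓡) :
    ¬ CountableIn g.M 𝓡 := by
  rintro ⟨f, hf, h1, h2⟩
  obtain ⟨φ, hφ, rfl⟩ := Gen.mem_M.1 hf
  obtain ⟨n, S, hS, s, a1, a2, a3⟩ := of_dense h.js (Gen.l1 hφ) (Eventually.of_forall fun q =>
    let ⟨r, b, s, c, d⟩ := hP.split (Val φ)
      (fun _ _ _ _ ⟨ρ, a, b⟩ hq => ⟨ρ, a.mono hq, b.mono hq⟩) q
    ⟨r, b, {rn s}, countable_singleton _, s, c, rfl, d⟩)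
  refine hR.2.2 ⟨_, Gen.π_mem_M (hS a2), rn_sub (hS a2), fun R hR' => ?_⟩
  obtain ⟨b, b1, b2⟩ := h2 R hR'
  obtain ⟨m, rfl⟩ := mem_omega_iff.1 b1
  obtain ⟨ρ, hρ, rfl⟩ := Gen.mem_M.1 (Gen.isCTM.trans _ hR.1 hR')
  rw [← Gen.π_nat (g := g), Gen.pair_mem_iff (Gen.nat_mem m) hρ hφ] at b2
  have b3 : ∀ᶠ q in g.fil, ∀ N, Dn (fun t => ∃ k, N ≤ k ∧ Fmem (nn k) ρ t) q := by
    obtain ⟨n, ⟨-, -, N, c⟩ | c⟩ := h.ji [ρ] (Gen.l1 hρ)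
    · obtain ⟨k, d, e⟩ := nz_of_infinite (hR.2.1 _ hR').2 (hR.2.1 _ hR').1 N
      exact (PreGen.ev_not_neg ((nz_mem_iff hρ).1 e) (ev_of fun q hq => (c k d).mono hq)).elim
    · refine ev_of (n := n) fun q hq N => dn_of_not_neg fun r hr h3 => ?_
      exact c r (hr.trans hq) ∅ countable_empty ⟨N, fun k hk t ht h4 => h3 t ht ⟨k, hk, h4⟩⟩
  have key : ∀ ε N, ∃ k, N ≤ k ∧ nz k ∈ g.π ρ ∧ (nz k ∈ g.π (rn s) ↔ ε = true) := fun ε N => by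
    refine h.wit hρ (hS a2) ?_
    filter_upwards [b2, b3, h.ev_fun hφ h1, ev_of (u := (· ≤ g.h n)) fun _ h => h]
      with q c1 c2 c3 c4
    obtain ⟨r, d1, k, d2, d3, d4⟩ := a3 m q c4 (fun N t ht =>
      let ⟨u, e1, k, e2, e3⟩ := c2 N t ht
      ⟨u, e1, k, e2, ρ, c1.mono (e1.trans ht), e3⟩) ε N q le_rfl
    refine ⟨r, d1, k, d2, Fmem.reg fun t ht => ?_, lit_rn a1 d4⟩
    obtain ⟨u, e1, ρ', e2, e3⟩ := d3 t ht
    exact ⟨u, e1, e3.congr_right (c3 _ _ _ u (e1.trans (ht.trans d1)) e2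
      (c1.mono (e1.trans (ht.trans d1))))⟩
  exact ⟨infinite_of_nz fun N => let ⟨k, a, b, c⟩ := key true N; ⟨k, a, b, c.2 rfl⟩,
    infinite_of_nz fun N => let ⟨k, a, b, c⟩ := key false N; ⟨k, a, b, by simpa using c⟩⟩

theorem Rich.no_barely (h : Rich C g) (hP : Nice P) {I : ZFSet.{0}} :
    ¬ BarelyIn g.M (g.π (oc (Ordinal.omega 1))) I := by
  rintro ⟨hI, -, h1, -, h2⟩
  obtain ⟨τ, hτ, rfl⟩ := Gen.mem_M.1 hI
  have h3 : ∀ᶠ q in g.fil, ∀ k, Dn (Many τ k) q := by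
    obtain ⟨n, ⟨-, -, k, c⟩ | c⟩ := h.jk [τ] (Gen.l1 hτ)
    · choose ρ a1 a2 a3 using fun i : Fin k => Gen.exists_of_mem_π (h1.natEmbedding _ i).2
      refine (PreGen.ev_not_neg (u := Many τ k) ?_ (ev_of fun q hq => c.mono hq)).elim
      have a4 : ∀ i j, ∀ᶠ q in g.fil, i ≠ j → Neg (Feq (ρ i) (ρ j)) q := fun i j => by
        rcases Gen.dec_eq (a1 i) (a1 j) with d | d
        · have := Gen.π_eq_of_ev (a1 i) (a1 j) d
          rw [a2, a2] at this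
          exact Eventually.of_forall fun q hij =>
            absurd (Fin.ext ((h1.natEmbedding _).injective (Subtype.ext this))) hij
        · exact d.mono fun q hq _ => hq
      filter_upwards [eventually_all.2 a3, eventually_all.2 fun i => eventually_all.2 (a4 i)]
        with q b1 b2 using ⟨ρ, b1, b2⟩
    · exact ev_of (n := n) fun q hq k => dn_of_not_neg fun r hr h3 =>
        c r (hr.trans hq) ∅ countable_empty ⟨k, h3⟩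
  obtain ⟨n, S, hS, A, W, ε, ⟨a1, a2, a3⟩, a4, a5, a6, a7, a8⟩ := of_dense h.jM (Gen.l1 hτ)
    (h3.mono fun q hq =>
      let ⟨r, b, A, W, ε, c⟩ := dense_main hP hq
      ⟨r, b, {⟨ℕ, A, W⟩, enum A, rn W}, (toFinite _).countable, A, W, ε,
        ⟨by simp, by simp, by simp⟩, c⟩)
  have hA := enum_mem (hS a2)
  have b1 : ∀ x ∈ g.π ⟨ℕ, A, W⟩, ∃ k, g.π (A k) = x := fun x hx =>
    let ⟨k, _, b, _⟩ := Gen.exists_child (hS a1) hx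
    ⟨k, b⟩
  have b2 : Function.Injective fun k => g.π (A k) := fun k m hkm => by
    by_contra hc
    exact PreGen.ev_not_neg ((Gen.π_eq_iff (hA k) (hA m)).1 hkm)
      (ev_of fun q hq => (a6 k m hc).mono hq)
  have b3 := h2 _ (Gen.π_mem_M (hS a1)) (fun x hx => by
      obtain ⟨k, rfl⟩ := b1 x hx
      exact (Gen.π_mem_iff (hA k) hτ).2 (ev_of fun q hq => (a5 k).mono hq))
    (countable_enum (hS a2) b1) (fun hfin => by
      obtain ⟨N, hN⟩ := (hfin.preimage b2.injOn).bddAbove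
      obtain ⟨k, c1, c2, -⟩ := h.wit (hS a3) (hS a3) (N := N + 1) (ε := true)
        (Eventually.of_forall fun q =>
          let ⟨r, c, k, d, e⟩ := a7 (N + 1) q
          have f : Dn (W k) r := fun t ht => ⟨t, le_rfl, a4 k _ _ e ht⟩
          ⟨r, c, k, d, (fmem_rn a4).2 f, lit_rn a4 f⟩)
      have := hN (a := k) ((Gen.π_mem_iff (hA k) (hS a1)).2 (((nz_mem_iff (hS a3)).1 c2).mono
        fun q hq => Fmem.reg fun r hr =>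
          let ⟨t, c, d⟩ := (fmem_rn a4).1 hq r hr
          ⟨t, c, Fmem.intro k d (Feq.refl _ _)⟩))
      omega)
  refine h.miss hP (hS a1) (ev_of fun q hq b => Dn.mono (a8 b) hq) ?_
  cases ε
  · obtain ⟨f, c1, c2, c3⟩ := b3 ∅ (Gen.π_emp (g := g) ▸ Gen.π_mem_M g.emp_mem)
      (ZFSet.empty_subset _)
    exact ⟨f, c1, c2, fun a ha => c3 a ⟨ha.1, fun B hB => by simpa using ha.2 B hB⟩⟩
  · obtain ⟨f, c1, c2, c3⟩ := b3 _ (Gen.π_mem_M (hS a1)) fun _ h => h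
    exact ⟨f, c1, c2, fun a ha => c3 a ⟨ha.1, fun B hB => by simpa [hB] using ha.2 B hB⟩⟩

theorem exists_model (hP : Nice P) (p : P) : ∃ M w : ZFSet.{0}, IsCTM M ∧ IsOmegaOne M w ∧
    ReapingNumberIs M w ∧ ¬ ∃ I, BarelyIn M w I := by
  obtain ⟨C, h1, h2, h3⟩ := hP.coll
  obtain ⟨g, h⟩ := exists_rich C p
  exact ⟨g.M, _, Gen.isCTM, h.omegaOne hP, ⟨⟨_, h.small hP h1 h2 h3⟩, fun _ => h.large hP⟩,
    fun ⟨_, hI⟩ => h.no_barely hP hI⟩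

end Pool.Agent.Lib.MP_ce2de7_lc
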